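import Pool.Agent.V11172.DsD

/-!
# DSOME(n) modulo 8 and 16

`DSOME(n)` is the sum, over the partitions of `n` into distinct parts, of (sum of the odd parts
minus sum of the even parts).  Both conjectured families of congruences hold, and more generally
`8 ∣ DSOME(n)` for all odd `n` and `16 ∣ DSOME(n)` for all `n ≡ 3 (mod 4)` such that `24 n + 1` is
divisible by `5` but not by `25`.
-/

set_option autoImplicit false

namespace Pool.Agent.Results.MP_496c03_nt.DsomeModEightSixteen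

/-- `DSOME(n)`: the sum over the partitions `p` of `n` into distinct parts of
(the sum of the odd parts of `p`) minus (the sum of the even parts of `p`) -/
def DSOME (n : ℕ) : ℤ :=
  ∑ p ∈ Nat.Partition.distincts n,
    (p.parts.map (fun a : ℕ => if Odd a then (a : ℤ) else -(a : ℤ))).sum

theorem result :
    (∀ n : ℕ, ∀ r ∈ ({21, 71, 121, 171, 221} : Finset ℕ), (8 : ℤ) ∣ DSOME (250 * n + r)) ∧
    (∀ n : ℕ, ∀ s ∈ ({71, 171, 271, 371, 471} : Finset ℕ), (16 : ℤ) ∣ DSOME (500 * n + s)) ∧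
    (∀ n : ℕ, (8 : ℤ) ∣ DSOME (50 * n + 21)) ∧
    (∀ n : ℕ, (16 : ℤ) ∣ DSOME (100 * n + 71)) ∧
    (∀ n : ℕ, 5 ∣ 24 * n + 1 → ¬ 25 ∣ 24 * n + 1 →
      (n % 2 = 1 → (8 : ℤ) ∣ DSOME n) ∧ (n % 4 = 3 → (16 : ℤ) ∣ DSOME n)) := by
  have h8 : ∀ n : ℕ, n % 5 = 1 → n % 25 ≠ 1 → n % 2 = 1 → (8 : ℤ) ∣ DSOME n :=
    fun n a b c => Pool.Agent.V11172.Ds.DSOME_8 a b c
  have h16 : ∀ n : ℕ, n % 5 = 1 → n % 25 ≠ 1 → n % 4 = 3 → (16 : ℤ) ∣ DSOME n :=
    fun n a b c => Pool.Agent.V11172.Ds.DSOME_16 a b c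
  refine ⟨?_, ?_, ?_, ?_, ?_⟩
  · intro n r hr
    have hr' : r = 21 ∨ r = 71 ∨ r = 121 ∨ r = 171 ∨ r = 221 := by simpa using hr
    exact h8 _ (by omega) (by omega) (by omega)
  · intro n s hs
    have hs' : s = 71 ∨ s = 171 ∨ s = 271 ∨ s = 371 ∨ s = 471 := by simpa using hs
    exact h16 _ (by omega) (by omega) (by omega)
  · intro n
    exact h8 _ (by omega) (by omega) (by omega)
  · intro n
    exact h16 _ (by omega) (by omega) (by omega)
  · intro n a b
    exact ⟨fun c => h8 n (by omega) (by omega) c, fun c => h16 n (by omega) (by omega) c⟩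

end Pool.Agent.Results.MP_496c03_nt.DsomeModEightSixteen
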